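import Pool.Agent.Helper62_GB.Stmt
import Pool.Agent.Helper1_Gen.Main

/-!
# GFIN: the class of squad FINE among all bounded convex domains
-/

namespace Pool.Agent.GB.H52

open MeasureTheory Complex Filter Topology ProbabilityTheory Pool.Agent.H16Iso Pool.Agent.H62T
open Pool.Agent.H16F
open scoped ENNReal NNReal

theorem not_collinear {s : Set ℂ} (h : (interior (convexHull ℝ s)).Nonempty) :
    ¬ Collinear ℝ s := by
  intro hcol
  rw [interior_convexHull_nonempty_iff_affineSpan_eq_top] at h
  rw [collinear_iff_finrank_le_one, ← direction_affineSpan, h,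
    AffineSubspace.direction_top, finrank_top, Complex.finrank_real_complex] at hcol
  norm_num at hcol

theorem cls_three {n : ℕ} [NeZero n] {δ : ℝ} {v : Fin n → ℂ} (h : Cls δ v) : 3 ≤ n := by
  by_contra hn
  have hn0 : n ≠ 0 := NeZero.ne n
  have h12 : n = 1 ∨ n = 2 := by omega
  rcases h12 with rfl | rfl
  · have := h.2.2.1 0 0
    simp at this
  · have h1 := h.2.2.2.1
    have h2 : (fun i : Fin 2 => ‖v (i + 1) - v i‖) 0 = (fun i : Fin 2 => ‖v (i + 1) - v i‖) 1 := by
      show ‖v (0 + 1) - v 0‖ = ‖v (1 + 1) - v 1‖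
      have e : (1 : Fin 2) + 1 = 0 := rfl
      rw [e, zero_add, norm_sub_rev]
    have h3 := congrArg Fin.val (h1 h2)
    simp at h3

theorem poly_ne {n : ℕ} [NeZero n] {δ : ℝ} {v : Fin n → ℂ} (h : Cls δ v) :
    (H1Gen.poly v).Nonempty :=
  H1Gen.CCW.poly_nonempty (cls_three h) h.1

theorem poly_bd {n : ℕ} (v : Fin n → ℂ) : Bornology.IsBounded (H1Gen.poly v) := by
  unfold H1Gen.poly
  refine Bornology.IsBounded.subset ?_ interior_subset
  rw [isBounded_convexHull]
  exact (Set.finite_range v).isBounded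

theorem gfin (hP : PolyStatement) (hF : FinalStatement) (hA : ApxStatement) : GfinStatement := by
  classical
  obtain ⟨δ, hδ, h1, h2, h3⟩ := hF
  refine ⟨δ, hδ, fun n _ v hv Ω hΩ hk => ?_, h2, fun Ω hΩ ε hε => ?_⟩
  · have hne := poly_ne hv
    have hQ : IsConvexPolygon (H1Gen.poly v) := by
      refine ⟨Finset.univ.image v, ?_, ?_⟩
      · rw [Finset.coe_image, Finset.coe_univ, Set.image_univ]
        exact not_collinear hne
      · rw [Finset.coe_image, Finset.coe_univ, Set.image_univ]
        rfl
    obtain ⟨F, hF1, hF2⟩ := hP Ω hΩ _ hQ fun k => (hk k).symm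
    rw [hF2]
    exact h1 n v hv F hF1 (by rw [← hF2]; exact hk)
  · obtain ⟨c, hc⟩ := hΩ.ne
    let T : ℂ ≃ₜ ℂ := Homeomorph.addRight c
    have hT : ∀ x, T x = x + c := fun x => rfl
    let Ω' : Set ℂ := T ⁻¹' Ω
    have hmem : ∀ x, x ∈ Ω' ↔ x + c ∈ Ω := fun x => Iff.rfl
    obtain ⟨R, hR⟩ := hΩ.bd.subset_ball c
    have hR0 : 0 < R := by
      have := hR hc
      rw [Metric.mem_ball, dist_self] at this
      exact this
    have hΩ'R : ∀ x ∈ Ω', ‖x‖ < R := by
      intro x hx
      have := hR ((hmem x).1 hx)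
      rw [Metric.mem_ball, dist_eq_norm, add_sub_cancel_right] at this
      exact this
    have hD : Dom Ω' := by
      refine ⟨hΩ.op.preimage T.continuous, ?_, ?_, ⟨0, (hmem 0).2 (by rwa [zero_add])⟩⟩
      · have : Ω' = (fun z => z + c) ⁻¹' Ω := rfl
        rw [this]
        exact hΩ.cv.translate_preimage_left c
      · rw [isBounded_iff_forall_norm_le]
        exact ⟨R, fun x hx => (hΩ'R x hx).le⟩
    set e : ℝ := ε / (2 * R) with he
    have he0 : 0 < e := by positivity
    obtain ⟨F, hF1, hF2, hF3, hF4⟩ := hA Ω' hD ((hmem 0).2 (by rwa [zero_add])) e he0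
    set P' : Set ℂ := interior (convexHull ℝ (F : Set ℂ)) with hP'
    -- the translated polygon
    have hPim : interior (convexHull ℝ ((F.image (fun x => x + c) : Finset ℂ) : Set ℂ)) = T '' P' := by
      rw [hP', T.image_interior]
      congr 1
      have : (T : ℂ → ℂ) = (AffineEquiv.constVAdd ℝ ℂ c : ℂ →ᵃ[ℝ] ℂ) := by
        funext x
        rw [hT]
        simp [add_comm]
      rw [this, AffineMap.image_convexHull, Finset.coe_image]
      congr 1
      refine Set.image_congr fun x _ => ?_
      simp [add_comm]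
    set G : Finset ℂ := F.image (fun x => x + c) with hG
    set P : Set ℂ := interior (convexHull ℝ (G : Set ℂ)) with hPdef
    have hPmem : ∀ x, x ∈ P ↔ x - c ∈ P' := by
      intro x
      rw [hPim]
      constructor
      · rintro ⟨y, hy, rfl⟩
        rw [hT, add_sub_cancel_right]
        exact hy
      · intro hx
        exact ⟨x - c, hx, by rw [hT, sub_add_cancel]⟩
    have hPne : P.Nonempty := ⟨c, (hPmem c).2 (by rw [sub_self]; exact hF2)⟩
    have hPbd : Bornology.IsBounded P := by
      refine Bornology.IsBounded.subset ?_ interior_subset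
      rw [isBounded_convexHull]
      exact G.finite_toSet.isBounded
    have hPΩ : Metric.hausdorffDist P Ω ≤ ε / 2 := by
      refine Metric.hausdorffDist_le_of_mem_dist (by positivity) (fun x hx => ?_) (fun x hx => ?_)
      · have h5 := hF3 ((hPmem x).1 hx)
        refine ⟨x, ?_, by rw [dist_self]; positivity⟩
        have := (hmem _).1 h5
        rwa [sub_add_cancel] at this
      · have h5 : x - c ∈ Ω' := (hmem _).2 (by rwa [sub_add_cancel])
        refine ⟨(((1 + e)⁻¹ : ℝ) : ℂ) * (x - c) + c, (hPmem _).2 (by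
          rw [add_sub_cancel_right]; exact hF4 _ h5), ?_⟩
        rw [dist_eq_norm]
        have h6 : x - ((((1 + e)⁻¹ : ℝ) : ℂ) * (x - c) + c)
            = ((1 - (1 + e)⁻¹ : ℝ) : ℂ) * (x - c) := by
          push_cast
          ring
        rw [h6, norm_mul, Complex.norm_real, Real.norm_eq_abs]
        have h7 : 1 - (1 + e)⁻¹ = e / (1 + e) := by
          field_simp
          ring
        have h8 : 0 ≤ e / (1 + e) := by positivity
        rw [h7, abs_of_nonneg h8]
        have h9 := hΩ'R _ h5
        have h10 : e / (1 + e) ≤ e := by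
          rw [div_le_iff₀ (by positivity)]
          nlinarith
        calc e / (1 + e) * ‖x - c‖ ≤ e * R :=
              mul_le_mul h10 h9.le (norm_nonneg _) he0.le
          _ = ε / 2 := by
              rw [he]
              field_simp
    obtain ⟨N, hN⟩ := h3 G (not_collinear hPne) (ε / 2) (by positivity)
    refine ⟨N, fun n hn _ => ?_⟩
    obtain ⟨v, hv, hv2⟩ := hN n hn
    refine ⟨v, hv, ?_⟩
    have hfin : Metric.hausdorffEDist (H1Gen.poly v) P ≠ ⊤ :=
      Metric.hausdorffEDist_ne_top_of_nonempty_of_bounded (poly_ne hv) hPne (poly_bd v) hPbd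
    calc Metric.hausdorffDist (H1Gen.poly v) Ω
        ≤ Metric.hausdorffDist (H1Gen.poly v) P + Metric.hausdorffDist P Ω :=
          Metric.hausdorffDist_triangle hfin
      _ < ε := by linarith

end Pool.Agent.GB.H52
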