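import Pool.Agent.Helper62_GB.Stmt
import Pool.Agent.Helper62_TRI.MainOf
import Pool.Agent.Helper85_TRI.DN

/-!
# GTRI: triangles are determined among all bounded convex domains
-/

namespace Pool.Agent.GB.H52

open Pool.Agent.H16Iso

theorem gtri (hP : PolyStatement) : GtriStatement := by
  classical
  intro a b c h Ω hΩ hk
  have hT : IsConvexPolygon (interior (convexHull ℝ {a, b, c})) :=
    ⟨{a, b, c}, by simpa using h, by simp⟩
  have hQ : IsConvexPolygon Ω := hP Ω hΩ _ hT fun k => (hk k).symm
  exact Pool.Agent.H62T.main_of Pool.Agent.H62T.H85.dn _ _ ⟨a, b, c, h, rfl⟩ hQ hk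

end Pool.Agent.GB.H52
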