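import Pool.Agent.Helper62_GB.Stmt
import Pool.Agent.Helper16_Iso.Polygon

/-!
# PFIN: if there are finitely many directions of strict sublinearity then the domain is a polygon
-/

namespace Pool.Agent.GB.H52

open MeasureTheory Complex Filter Topology ProbabilityTheory Pool.Agent.H16Iso Pool.Agent.H62T
open Pool.Agent.H16F
open scoped ENNReal NNReal

/-- the linear form `x ↦ ip u x` -/
noncomputable def ipL (u : ℂ) : ℂ →ₗ[ℝ] ℝ := u.re • Complex.reLm + u.im • Complex.imLm

theorem ipL_apply (u x : ℂ) : ipL u x = H62T.ip u x := by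
  simp [ipL, H62T.ip]

theorem pfin (hSfb : SfbStatement) (hSsb : SsbStatement) : PfinStatement := by
  intro h hh hfin
  obtain ⟨hdom, h0, hcl, -, -⟩ := hSfb.2.2.1 h hh
  obtain ⟨-, hdet⟩ := hSsb h hh
  have : Fintype (SS h) := hfin.fintype
  have hunit : ∀ u : SS h, (u : ℂ) ≠ 0 := by
    intro u hu
    have := u.2.1
    rw [hu, norm_zero] at this
    exact zero_ne_one this
  have hsub : Bd h ⊆ {z : ℂ | ∀ j : SS h, ipL (j : ℂ) z < h j} := by
    intro z hz j
    rw [ipL_apply]
    exact hz j (hunit j)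
  have hop : IsOpen {z : ℂ | ∀ j : SS h, ipL (j : ℂ) z < h j} := by
    have : {z : ℂ | ∀ j : SS h, ipL (j : ℂ) z < h j}
        = ⋂ j : SS h, {z : ℂ | ipL (j : ℂ) z < h j} := by ext z; simp
    rw [this]
    exact isOpen_iInter_of_finite fun j => isOpen_lt (lin_cont _) continuous_const
  have heq : {z : ℂ | ∀ j : SS h, ipL (j : ℂ) z < h j} = Bd h := by
    refine subset_antisymm ?_ hsub
    have h1 : {z : ℂ | ∀ j : SS h, ipL (j : ℂ) z < h j} ⊆ closure (Bd h) := by
      intro z hz
      rw [hcl]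
      refine hdet z fun u hu => ?_
      have := hz ⟨u, hu⟩
      rw [ipL_apply] at this
      exact this.le
    have h2 := interior_maximal h1 hop
    have h3 : interior (closure (Bd h)) = Bd h := by
      rw [hdom.cv.interior_closure_eq_interior_of_nonempty_interior
        (by rw [hdom.op.interior_eq]; exact hdom.ne), hdom.op.interior_eq]
    rwa [h3] at h2
  rw [← heq]
  refine isConvexPolygon_of_halfspaces (fun j hj => ?_) ?_ ?_
  · have h1 : ipL (j : ℂ) (j : ℂ) = 0 := by rw [hj]; rfl
    rw [ipL_apply, H62T.ip] at h1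
    have h2 : (j : ℂ).re = 0 := by nlinarith [mul_self_nonneg (j : ℂ).re, mul_self_nonneg (j : ℂ).im]
    have h3 : (j : ℂ).im = 0 := by nlinarith [mul_self_nonneg (j : ℂ).re, mul_self_nonneg (j : ℂ).im]
    exact hunit j (Complex.ext h2 h3)
  · rw [heq]
    exact hdom.ne
  · rw [heq]
    exact hdom.bd

end Pool.Agent.GB.H52
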